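import Pool.Agent.MWE.Stmts

/-!
Squad MWE, row PLM (backup).
-/

set_option autoImplicit false

namespace Pool.Agent.MWE.H11

open Pool.Agent.MWE

theorem mv_left {P : ℕ → Bool} {E : List ℕ → Prop} {D : List ℕ}
    (hyp : ∀ (A C : List ℕ) (a b : ℕ), (A ++ a :: b :: C).Perm D →
      (A ++ a :: b :: C).filter P = D.filter P → a ≠ b → ¬ (P a = true ∧ P b = true) →
        E (A ++ a :: b :: C) → E (A ++ b :: a :: C)) (b : ℕ) : ∀ (T1 A T2 : List ℕ),
    (∀ a ∈ T1, a ≠ b ∧ ¬ (P a = true ∧ P b = true)) → (A ++ (T1 ++ b :: T2)).Perm D →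
      (A ++ (T1 ++ b :: T2)).filter P = D.filter P → E (A ++ (T1 ++ b :: T2)) →
        E (A ++ (b :: (T1 ++ T2))) := by
  intro T1
  induction T1 with
  | nil => intro A T2 _ _ _ h; exact h
  | cons a T1 ih =>
    intro A T2 h1 h2 h3 h4
    have e1 : A ++ (a :: T1 ++ b :: T2) = (A ++ [a]) ++ (T1 ++ b :: T2) := by simp
    rw [e1] at h2 h3 h4
    have h5 := ih (A ++ [a]) T2 (fun c hc => h1 c (List.mem_cons_of_mem _ hc)) h2 h3 h4
    have ha := h1 a List.mem_cons_self
    have hT : T1.filter P = [] ∨ P b = false := by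
      by_cases hb : P b = true
      · left
        rw [List.filter_eq_nil_iff]
        intro c hc hc'
        exact (h1 c (List.mem_cons_of_mem _ hc)).2 ⟨hc', hb⟩
      · right
        simpa using hb
    have hp : (A ++ a :: b :: (T1 ++ T2)).Perm D := by
      refine List.Perm.trans ?_ h2
      have : (a :: b :: (T1 ++ T2)).Perm ([a] ++ (T1 ++ b :: T2)) := by
        refine List.Perm.cons a ?_
        exact List.perm_middle.symm
      rw [List.append_assoc]
      exact this.append_left A
    have hf : (A ++ a :: b :: (T1 ++ T2)).filter P = D.filter P := by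
      rw [← h3]
      rcases hT with hT | hT
      · simp [List.filter_cons, hT]
      · simp [List.filter_cons, hT]
    have e2 : (A ++ [a]) ++ (b :: (T1 ++ T2)) = A ++ a :: b :: (T1 ++ T2) := by simp
    rw [e2] at h5
    exact hyp A (T1 ++ T2) a b hp hf ha.1 ha.2 h5

theorem plm_aux {P : ℕ → Bool} {E : List ℕ → Prop} {D : List ℕ}
    (hyp : ∀ (A C : List ℕ) (a b : ℕ), (A ++ a :: b :: C).Perm D →
      (A ++ a :: b :: C).filter P = D.filter P → a ≠ b → ¬ (P a = true ∧ P b = true) →
        E (A ++ a :: b :: C) → E (A ++ b :: a :: C)) : ∀ (T' T A : List ℕ), T.Perm T' →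
      T.filter P = T'.filter P → (A ++ T).Perm D → (A ++ T).filter P = D.filter P →
        E (A ++ T) → E (A ++ T') := by
  intro T'
  induction T' with
  | nil =>
    intro T A h1 _ _ _ h
    rw [List.perm_nil] at h1
    rw [h1] at h
    exact h
  | cons b T' ih =>
    intro T A h1 h2 h3 h4 h5
    have hb : b ∈ T := h1.symm.subset List.mem_cons_self
    obtain ⟨T1, T2, hT, hb1⟩ : ∃ T1 T2, T = T1 ++ b :: T2 ∧ b ∉ T1 := by
      obtain ⟨s, t, hs, h⟩ := List.eq_append_cons_of_mem hb
      exact ⟨s, t, hs, h⟩
    subst hT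
    have hcond : ∀ a ∈ T1, a ≠ b ∧ ¬ (P a = true ∧ P b = true) := by
      intro a ha
      refine ⟨fun h => hb1 (h ▸ ha), ?_⟩
      rintro ⟨pa, pb⟩
      rw [List.filter_append, List.filter_cons, if_pos pb, List.filter_cons, if_pos pb] at h2
      cases hc : T1.filter P with
      | nil =>
        rw [List.filter_eq_nil_iff] at hc
        exact hc a ha pa
      | cons d l =>
        rw [hc, List.cons_append, List.cons.injEq] at h2
        have : d ∈ T1.filter P := by rw [hc]; exact List.mem_cons_self
        rw [h2.1] at this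
        exact hb1 (List.mem_of_mem_filter this)
    have h6 := mv_left hyp b T1 A T2 hcond h3 h4 h5
    have e1 : A ++ (b :: (T1 ++ T2)) = (A ++ [b]) ++ (T1 ++ T2) := by simp
    have e2 : A ++ (b :: T') = (A ++ [b]) ++ T' := by simp
    rw [e1] at h6
    rw [e2]
    have hf1 : (T1 ++ b :: T2).filter P = (b :: (T1 ++ T2)).filter P := by
      by_cases pb : P b = true
      · have : T1.filter P = [] := by
          rw [List.filter_eq_nil_iff]
          intro c hc hc'
          exact (hcond c hc).2 ⟨hc', pb⟩
        simp [List.filter_cons, this]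
      · simp [List.filter_cons, pb]
    refine ih (T1 ++ T2) (A ++ [b]) ?_ ?_ ?_ ?_ h6
    · exact (List.perm_middle.symm.trans h1).cons_inv
    · rw [hf1] at h2
      by_cases pb : P b = true
      · rw [List.filter_cons, if_pos pb, List.filter_cons, if_pos pb, List.cons.injEq] at h2
        exact h2.2
      · rw [List.filter_cons, if_neg pb, List.filter_cons, if_neg pb] at h2
        exact h2
    · rw [← e1]
      exact (List.perm_middle.symm.append_left A).trans h3
    · rw [← e1, ← h4, List.filter_append, List.filter_append, hf1]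

theorem plm : PlmStmt := by
  intro P E D D' h1 h2 hyp h3
  exact plm_aux (D := D) hyp D' D [] h1 h2 (List.Perm.refl _) rfl h3

end Pool.Agent.MWE.H11
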