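import Pool.Agent.Helper11_MWE.FLR
import Pool.Agent.Helper27_MWE.SMA
import Pool.Agent.Helper77_MWE.LOC
import Pool.Agent.Helper11_MWE.PLMb
import Pool.Agent.Helper10_MWE.FCE
import Pool.Agent.Helper59_MWE.DCM
import Pool.Agent.Helper10_MWE.BAS
import Pool.Agent.Helper11_MWE.TRGb
import Pool.Agent.Helper23_MWE.TRA
import Pool.Agent.Helper7_MWE.SWO
import Pool.Agent.Helper6_MWE.PMV
import Pool.Agent.Helper66_MWE.XCH
import Pool.Agent.Helper19_MWE.CPR
import Pool.Agent.Helper36_MWE.SWI
import Pool.Agent.Helper32_MWE.SWT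
import Pool.Agent.Helper76_MWE.NFH
import Pool.Agent.Helper46_MWE.CLM
import Pool.Agent.Helper89_MWE.FPR
import Pool.Agent.Helper60_MWE.FAB
import Pool.Agent.Helper81_MWE.FST
import Pool.Agent.Helper81_MWE.SPL
import Pool.Agent.Helper3_MWE.SEP
import Pool.Agent.Helper86_MWE.STA
import Pool.Agent.Helper95_MWE.NXL
import Pool.Agent.Helper7_MWE.STB
import Pool.Agent.Helper24_MWE.PNA
import Pool.Agent.Helper16_MWE.RED
import Pool.Agent.Helper98_MWE.MIE
import Pool.Agent.Helper2_MWE.EEA
import Pool.Agent.Helper13_MWE.FAL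
import Pool.Agent.Helper13_MWE.LXR

/-!
Squad MWE: the assembly.
-/

set_option autoImplicit false

namespace Pool.Agent.MWE.H11

open Pool.Agent.Helper14_MV Pool.Agent.Helper2_MV Pool.Agent.MVD

theorem smaF : SmaStmt := H27.sma
theorem locF : LocStmt := H77.loc
theorem plmF : PlmStmt := H11.plm
theorem fceF : FceStmt := H10.fce
theorem dcmF : DcmStmt := H59.dcm
theorem basF : BasStmt := H10.bas
theorem trgF : TrgStmt := H11.trg
theorem traF : TraStmt := H23.tra trgF
theorem swoF : SwoStmt := H7.swo smaF locF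
theorem pmvF : PmvStmt := H6.pmv plmF swoF
theorem xchF : XchStmt := H66.xch smaF
theorem cprF : CprStmt := H19.cpr basF traF pmvF xchF
theorem swiF : SwiStmt := H36.swi pmvF
theorem swtF : SwtStmt := H32.swt smaF locF
theorem nfhF : NfhStmt := H76.nfh cprF swiF
theorem clmF : ClmStmt := H46.clm plmF fceF basF traF pmvF cprF swiF swtF nfhF
theorem fprF : FprStmt := H89.fpr
theorem fabF : FabStmt := H60.fab fprF
theorem fstF : FstStmt := H81F.fst dcmF basF cprF nfhF
theorem splF : SplStmt := H81.spl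
theorem sepF : SepStmt := H3.sep basF
theorem staF : StaStmt := H86.sta dcmF splF sepF fstF clmF cprF
theorem nxlF : NxlStmt := H95.nxl fceF fprF
theorem stbF : StbStmt := H7.stb fceF fabF splF sepF fstF nxlF
theorem pnaF : PnaStmt := H24.pna
theorem redF : RedStmt := H16.red
theorem mieF : MieStmt := H98.mie
theorem eeaF : EeaStmt := H2.eea fabF staF stbF pnaF
/-- **F and F' for all words** -/
theorem falF : FalStmt := H13.fal redF mieF eeaF
theorem lxrF : LxrStmt := H13.lxr

/-- **F and F' for all words** in the notation of the final theorem -/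
theorem flrF : ∀ β : FIC, ModF β → Iso3 β → MWZ.I2 (RR β) →
    ¬ (MWZ.S1 (RR β) ∧ MWZ.S2 (RR β)) →
      ¬ (MWZ.S1 (RR (FIC.op β)) ∧ MWZ.S2 (RR (FIC.op β))) →
        MWZ.F (RR β) ∧ MWZ.F' (RR β) := flr falF lxrF

end Pool.Agent.MWE.H11
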