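import Pool.Agent.MWE.Stmts
import Pool.Agent.MWZ.Defs

/-!
The theorem of squad MWE in the notation of the final systems (`MWZ`).
-/

set_option autoImplicit false

namespace Pool.Agent.MWE.H11

open Pool.Agent.Helper14_MV Pool.Agent.Helper2_MV Pool.Agent.MVD

/-- renaming `0, 3, 2, 5 ↦ 0, 1, 2, 3` -/
def rn (a : ℕ) : List ℕ := if a = 3 then [1] else if a = 5 then [3] else [a]
/-- renaming `0, 1, 2, 3 ↦ 0, 3, 2, 5` -/
def rm (a : ℕ) : List ℕ := if a = 1 then [3] else if a = 3 then [5] else [a]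

theorem s1_iff (β : FIC) : MWZ.S1 (RR β) ↔ S1 β := by
  constructor
  · intro h
    exact RR.sub rm h
  · intro h
    exact RR.sub rn h

theorem s2_iff (β : FIC) : MWZ.S2 (RR β) ↔ S2 β := by
  constructor
  · intro h
    exact RR.sub rm h
  · intro h
    exact RR.sub rn h

/-- `xy t x s y ≈ yx t x s y` for the mirror image -/
theorem s1op_iff (β : FIC) : MWZ.S1 (RR (FIC.op β)) ↔ S3 β := by
  rw [s1_iff]
  exact (Pool.Agent.MVD.H81.mir β).2.2.2.2.1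

theorem s2op_iff (β : FIC) : MWZ.S2 (RR (FIC.op β)) ↔ S2 β := by
  rw [s2_iff]
  exact (Pool.Agent.MVD.H81.mir β).2.2.2.2.2.1

/-- **F and F' for all words** in the notation of the final theorem -/
theorem flr (hFal : FalStmt) (hLxr : LxrStmt) : ∀ β : FIC, ModF β → Iso3 β → MWZ.I2 (RR β) →
    ¬ (MWZ.S1 (RR β) ∧ MWZ.S2 (RR β)) →
      ¬ (MWZ.S1 (RR (FIC.op β)) ∧ MWZ.S2 (RR (FIC.op β))) →
        MWZ.F (RR β) ∧ MWZ.F' (RR β) := by
  intro β hM h3 hI h1 h2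
  rw [s1_iff, s2_iff] at h1
  rw [s1op_iff, s2op_iff] at h2
  have h4 : ¬ S2 β ∨ (S2 β ∧ ¬ S1 β ∧ ¬ S3 β) := by
    by_cases h : S2 β
    · exact Or.inr ⟨h, fun h' => h1 ⟨h', h⟩, fun h' => h2 ⟨h', h⟩⟩
    · exact Or.inl h
  obtain ⟨hl, hr⟩ := hLxr β hM h3 h4
  exact hFal β ⟨hM, h3, hI, hl, hr⟩

end Pool.Agent.MWE.H11
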